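import Pool.Agent.V5helper73.SZ.Stm

set_option autoImplicit false
open Complex Metric Set Filter Topology MeasureTheory

namespace V5helper41.SZ
open V5helper73.SZ

noncomputable def fl (b t : ℕ) (x : ℝ) : ℕ := ⌊x * (b:ℝ) ^ t⌋₊

lemma fl_zero {b : ℕ} {x : ℝ} (h : x < 1) : fl b 0 x = 0 := by
  unfold fl
  rw [pow_zero, mul_one, Nat.floor_eq_zero]
  exact h

lemma fl_div {b : ℕ} (hb : 0 < b) (t : ℕ) (x : ℝ) : fl b (t + 1) x / b = fl b t x := by
  unfold fl
  rw [← Nat.floor_div_natCast]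
  congr 1
  have : (b:ℝ) ≠ 0 := by positivity
  field_simp
  ring

lemma fl_succ {b : ℕ} (hb : 0 < b) (t : ℕ) (x : ℝ) : fl b (t + 1) x = b * fl b t x + fl b (t + 1) x % b := by
  rw [← fl_div hb t x]
  exact (Nat.div_add_mod _ _).symm

lemma fl_eq_of_dg {b : ℕ} (hb : 0 < b) {x y : ℝ} (hx : x < 1) (hy : y < 1) (t : ℕ)
    (h : ∀ s < t, fl b (s + 1) x % b = fl b (s + 1) y % b) : fl b t x = fl b t y := by
  induction t with
  | zero => rw [fl_zero hx, fl_zero hy]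
  | succ t ih =>
    rw [fl_succ hb t x, fl_succ hb t y, ih (fun s hs => h s (by omega)), h t (by omega)]

lemma close_of_fl {b : ℕ} (hb : 0 < b) {x y : ℝ} (hx : 0 ≤ x) (hy : 0 ≤ y) (t : ℕ)
    (h : fl b t x = fl b t y) : |x - y| ≤ 1 / (b:ℝ) ^ t := by
  have hbt : 0 < (b:ℝ) ^ t := by positivity
  have h1 := Nat.floor_le (mul_nonneg hx hbt.le)
  have h2 := Nat.lt_floor_add_one (x * (b:ℝ) ^ t)
  have h3 := Nat.floor_le (mul_nonneg hy hbt.le)
  have h4 := Nat.lt_floor_add_one (y * (b:ℝ) ^ t)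
  unfold fl at h
  rw [h] at h1 h2
  rw [abs_le]
  constructor
  · rw [neg_le_iff_add_nonneg, ← sub_nonneg] 
    have : 0 ≤ (x - y) * (b:ℝ) ^ t + 1 := by nlinarith
    have e : x - y + 1 / (b:ℝ) ^ t = ((x - y) * (b:ℝ) ^ t + 1) / (b:ℝ) ^ t := by
      field_simp
    rw [sub_zero, e]
    positivity
  · rw [le_div_iff₀ hbt]
    nlinarith

/-- a point near a middle point is in the same square -/
lemma fl_near {e : ℕ} (he : 0 < e) {x u : ℝ} (t : ℕ)
    (h1 : e ≤ fl (8 * e) (t + 1) x % (8 * e)) (h2 : fl (8 * e) (t + 1) x % (8 * e) < 7 * e) (hx : 0 ≤ x)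
    (hu : |u - x| * ((8 * e : ℕ):ℝ) ^ t ≤ 1 / 8) : 0 ≤ u ∧ fl (8 * e) t u = fl (8 * e) t x := by
  have hb : 0 < 8 * e := by omega
  have hbR : (0:ℝ) < ((8 * e : ℕ):ℝ) := by exact_mod_cast hb
  have heR : (0:ℝ) < (e:ℝ) := by exact_mod_cast he
  have hbt : 0 < ((8 * e : ℕ):ℝ) ^ t := by positivity
  have hs := fl_succ hb t x
  set n := fl (8 * e) t x with hn
  set g := fl (8 * e) (t + 1) x % (8 * e) with hg
  have hbt1 : 0 < ((8 * e : ℕ):ℝ) ^ (t + 1) := by positivity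
  have h3 := Nat.floor_le (mul_nonneg hx hbt1.le)
  have h4 := Nat.lt_floor_add_one (x * ((8 * e : ℕ):ℝ) ^ (t + 1))
  have h5 : ⌊x * ((8 * e : ℕ):ℝ) ^ (t + 1)⌋₊ = 8 * e * n + g := hs
  rw [h5] at h3 h4
  push_cast at h3 h4
  have h1' : (e:ℝ) ≤ (g:ℝ) := by exact_mod_cast h1
  have h2' : (g:ℝ) + 1 ≤ 7 * (e:ℝ) := by exact_mod_cast h2
  have hp : ((8 * e : ℕ):ℝ) ^ t = (8 * (e:ℝ)) ^ t := by push_cast; ring
  rw [hp] at hu hbt
  have hlow : (n:ℝ) + 1 / 8 ≤ x * (8 * (e:ℝ)) ^ t := by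
    have : (8 * (e:ℝ)) * ((n:ℝ) + 1 / 8) ≤ (8 * (e:ℝ)) * (x * (8 * (e:ℝ)) ^ t) := by
      have e1 : (8 * (e:ℝ)) * (x * (8 * (e:ℝ)) ^ t) = x * (8 * (e:ℝ)) ^ (t + 1) := by ring
      rw [e1]; linarith
    exact le_of_mul_le_mul_left this (by positivity)
  have hup : x * (8 * (e:ℝ)) ^ t < (n:ℝ) + 7 / 8 := by
    have : (8 * (e:ℝ)) * (x * (8 * (e:ℝ)) ^ t) < (8 * (e:ℝ)) * ((n:ℝ) + 7 / 8) := by
      have e1 : (8 * (e:ℝ)) * (x * (8 * (e:ℝ)) ^ t) = x * (8 * (e:ℝ)) ^ (t + 1) := by ring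
      rw [e1]; linarith
    exact lt_of_mul_lt_mul_left this (by positivity)
  have hd : |u * (8 * (e:ℝ)) ^ t - x * (8 * (e:ℝ)) ^ t| ≤ 1 / 8 := by
    rw [← sub_mul, abs_mul, abs_of_pos hbt]; exact hu
  rw [abs_le] at hd
  have hn0 : (0:ℝ) ≤ n := Nat.cast_nonneg n
  have hu0 : (0:ℝ) ≤ u * (8 * (e:ℝ)) ^ t := by linarith [hd.1]
  refine ⟨nonneg_of_mul_nonneg_left hu0 hbt, ?_⟩
  unfold fl
  rw [hp, Nat.floor_eq_iff hu0]
  constructor <;> linarith [hd.1, hd.2]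

/-- the number of the vertices of a path in an annulus -/
lemma annulus (D : ℕ → ℝ) (k m : ℕ) (hkm : k ≤ m) (R δ : ℝ) (hδ : 0 ≤ δ) (hk : R < D k) (hm : D m ≤ R / 2)
    (hstep : ∀ l, k ≤ l → l < m → D (l + 1) ≤ R → D l ≤ D (l + 1) + δ) :
    R / 2 < ((((Finset.Ioc k m).filter (fun l => R / 2 < D l ∧ D l ≤ R)).card : ℝ) + 1) * δ := by
  by_contra hcon
  push Not at hcon
  set V := (Finset.Ioc k m).filter (fun l => R / 2 < D l ∧ D l ≤ R) with hV
  have key : ∀ n : ℕ, n ≤ m - k → D (m - n) ≤ R / 2 + (((V.filter (fun l => m - n < l)).card : ℝ) + 1) * δ := by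
    intro n
    induction n with
    | zero =>
      intro _
      simp only [Nat.sub_zero]
      have : (0:ℝ) ≤ (((V.filter (fun l => m < l)).card : ℝ) + 1) * δ := by positivity
      linarith
    | succ n ih =>
      intro hn
      have ih' := ih (by omega)
      have hle : ((V.filter (fun l => m - n < l)).card : ℝ) ≤ V.card := by
        exact_mod_cast Finset.card_le_card (Finset.filter_subset _ _)
      have hR : D (m - n) ≤ R := by
        have : (((V.filter (fun l => m - n < l)).card : ℝ) + 1) * δ ≤ ((V.card : ℝ) + 1) * δ := by gcongr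
        linarith
      have e1 : m - (n + 1) + 1 = m - n := by omega
      have hs := hstep (m - (n + 1)) (by omega) (by omega) (by rw [e1]; exact hR)
      rw [e1] at hs
      have hmono : ((V.filter (fun l => m - n < l)).card : ℝ) ≤ (V.filter (fun l => m - (n + 1) < l)).card := by
        have : V.filter (fun l => m - n < l) ⊆ V.filter (fun l => m - (n + 1) < l) := by
          intro l hl
          rw [Finset.mem_filter] at hl ⊢
          exact ⟨hl.1, by omega⟩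
        exact_mod_cast Finset.card_le_card this
      by_cases hc : D (m - n) ≤ R / 2
      · have : (0:ℝ) ≤ ((V.filter (fun l => m - (n + 1) < l)).card : ℝ) * δ := by positivity
        nlinarith
      · push Not at hc
        have hins : insert (m - n) (V.filter (fun l => m - n < l)) ⊆ V.filter (fun l => m - (n + 1) < l) := by
          intro l hl
          rw [Finset.mem_insert] at hl
          rcases hl with rfl | hl
          · rw [Finset.mem_filter, hV, Finset.mem_filter, Finset.mem_Ioc]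
            exact ⟨⟨⟨by omega, by omega⟩, hc, hR⟩, by omega⟩
          · rw [Finset.mem_filter] at hl ⊢
            exact ⟨hl.1, by omega⟩
        have hcard := Finset.card_le_card hins
        rw [Finset.card_insert_of_notMem (by simp)] at hcard
        have hcard' : ((V.filter (fun l => m - n < l)).card : ℝ) + 1 ≤ (V.filter (fun l => m - (n + 1) < l)).card := by
          exact_mod_cast hcard
        nlinarith
  have h1 := key (m - k) le_rfl
  have e2 : m - (m - k) = k := by omega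
  rw [e2] at h1
  have hle : ((V.filter (fun l => k < l)).card : ℝ) ≤ V.card := by
    exact_mod_cast Finset.card_le_card (Finset.filter_subset _ _)
  have : (((V.filter (fun l => k < l)).card : ℝ) + 1) * δ ≤ ((V.card : ℝ) + 1) * δ := by gcongr
  linarith

lemma key_full {e : ℕ} (he : 0 < e) (X Y : ℕ → ℝ) (P : Finset ℕ) (hX : ∀ j ∈ P, 0 ≤ X j ∧ X j < 1)
    (hY : ∀ j ∈ P, 0 ≤ Y j ∧ Y j < 1) (hb : 0 < 8 * e) (j : ℕ) (hj : j ∈ P) (t : ℕ)
    (hx1 : e ≤ fl (8 * e) (t + 1) (X j) % (8 * e)) (hx2 : fl (8 * e) (t + 1) (X j) % (8 * e) < 7 * e)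
    (hy1 : e ≤ fl (8 * e) (t + 1) (Y j) % (8 * e)) (hy2 : fl (8 * e) (t + 1) (Y j) % (8 * e) < 7 * e)
    (hfull : ∀ c : Fin ((8 * e) * (8 * e)), ∃ j' ∈ P,
      (∀ s < t, (finProdFinEquiv ((⟨fl (8 * e) (s + 1) (X j') % (8 * e), Nat.mod_lt _ hb⟩ : Fin (8 * e)),
          (⟨fl (8 * e) (s + 1) (Y j') % (8 * e), Nat.mod_lt _ hb⟩ : Fin (8 * e))) : Fin ((8 * e) * (8 * e))) =
        finProdFinEquiv ((⟨fl (8 * e) (s + 1) (X j) % (8 * e), Nat.mod_lt _ hb⟩ : Fin (8 * e)),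
          (⟨fl (8 * e) (s + 1) (Y j) % (8 * e), Nat.mod_lt _ hb⟩ : Fin (8 * e)))) ∧
      (finProdFinEquiv ((⟨fl (8 * e) (t + 1) (X j') % (8 * e), Nat.mod_lt _ hb⟩ : Fin (8 * e)),
          (⟨fl (8 * e) (t + 1) (Y j') % (8 * e), Nat.mod_lt _ hb⟩ : Fin (8 * e))) : Fin ((8 * e) * (8 * e))) = c)
    (ux uy : ℝ) (hux : |ux - X j| * ((8 * e : ℕ):ℝ) ^ t ≤ 1 / 8) (huy : |uy - Y j| * ((8 * e : ℕ):ℝ) ^ t ≤ 1 / 8) :
    ∃ j' ∈ P, |ux - X j'| ≤ 1 / ((8 * e : ℕ):ℝ) ^ (t + 1) ∧ |uy - Y j'| ≤ 1 / ((8 * e : ℕ):ℝ) ^ (t + 1) := by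
  obtain ⟨hux0, hux1⟩ := fl_near he t hx1 hx2 (hX j hj).1 hux
  obtain ⟨huy0, huy1⟩ := fl_near he t hy1 hy2 (hY j hj).1 huy
  obtain ⟨j', hj', hs, ht⟩ := hfull (finProdFinEquiv ((⟨fl (8 * e) (t + 1) ux % (8 * e), Nat.mod_lt _ hb⟩ : Fin (8 * e)),
          (⟨fl (8 * e) (t + 1) uy % (8 * e), Nat.mod_lt _ hb⟩ : Fin (8 * e))))
  have ht' := finProdFinEquiv.injective ht
  simp only [Prod.mk.injEq, Fin.mk.injEq] at ht'
  have hs' : ∀ s < t, fl (8 * e) (s + 1) (X j') % (8 * e) = fl (8 * e) (s + 1) (X j) % (8 * e) ∧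
      fl (8 * e) (s + 1) (Y j') % (8 * e) = fl (8 * e) (s + 1) (Y j) % (8 * e) := by
    intro s hst
    have := finProdFinEquiv.injective (hs s hst)
    simpa only [Prod.mk.injEq, Fin.mk.injEq] using this
  have e1 := fl_eq_of_dg hb (hX j' hj').2 (hX j hj).2 t (fun s hst => (hs' s hst).1)
  have e2 := fl_eq_of_dg hb (hY j' hj').2 (hY j hj).2 t (fun s hst => (hs' s hst).2)
  refine ⟨j', hj', ?_, ?_⟩
  · refine close_of_fl hb hux0 (hX j' hj').1 (t + 1) ?_
    rw [fl_succ hb t ux, fl_succ hb t (X j'), hux1, e1, ht'.1]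
  · refine close_of_fl hb huy0 (hY j' hj').1 (t + 1) ?_
    rw [fl_succ hb t uy, fl_succ hb t (Y j'), huy1, e2, ht'.2]

/-- the geometric part: few levels are full and middle -/
lemma count_T {C A : ℝ} (hC : 1 ≤ C) (hA : 1 ≤ A) {w : ℕ → ℕ → ℂ} {d : ℕ → ℕ → ℝ} (hT : Tree C w d) {b Nn : ℕ}
    (hb : b = 2 ^ Nn) (hNn : 3 ≤ Nn) (hbig : 48 * C ^ 3 * (12 * A * Nn + 1) ≤ (b:ℝ)) {k m i : ℕ} (hkm : k ≤ m)
    {σ ε : ℝ} (hε : 0 < ε) (hεσ : ε ≤ σ) (hσd : σ ≤ C * d k i)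
    (hmk : ((m : ℝ) - k) ≤ A * (1 + Real.logb 2 (σ / ε))) (S : ℕ) (hS1 : (b:ℝ) ^ S ≤ σ / ε) (hS2 : σ / ε < (b:ℝ) ^ (S + 1))
    (P : Finset ℕ) (hP : ∀ j ∈ P, j / 2 ^ (m - k) = i ∧ d m j ≤ 2 * ε) (j : ℕ) (hj : j ∈ P) (T : Finset ℕ)
    (hTs : ∀ t ∈ T, t < S ∧ ∀ u : ℂ, ‖u - w m j‖ ≤ 4 * C * σ / (b:ℝ) ^ t / 8 →
      ∃ j' ∈ P, ‖u - w m j'‖ ≤ 2 * (4 * C * σ / (b:ℝ) ^ (t + 1))) : 4 * T.card ≤ S := by
  have hσ : 0 < σ := lt_of_lt_of_le hε hεσ
  have hC0 : 0 < C := by linarith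
  have hb1 : (8:ℝ) ≤ b := by
    rw [hb]; push_cast
    calc (8:ℝ) = 2 ^ 3 := by norm_num
      _ ≤ 2 ^ Nn := pow_le_pow_right₀ (by norm_num) hNn
  have hb0 : (0:ℝ) < b := by linarith
  set D : ℕ → ℝ := fun l => ‖w l (j / 2 ^ (m - l)) - w m j‖ with hD
  set s : ℕ → ℝ := fun t => 4 * C * σ / (b:ℝ) ^ t with hs
  have hspos : ∀ t, 0 < s t := fun t => by simp only [hs]; positivity
  have hss : ∀ t, s t = b * s (t + 1) := by
    intro t
    simp only [hs]
    have : (b:ℝ) ^ t ≠ 0 := by positivity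
    field_simp
    ring
  have hstepidx : ∀ l, l < m → (j / 2 ^ (m - (l + 1))) / 2 = j / 2 ^ (m - l) := by
    intro l hl
    rw [Nat.div_div_eq_div_mul, ← pow_succ]
    congr 2
    omega
  set V : ℕ → Finset ℕ := fun t => (Finset.Ioc k m).filter (fun l => s t / 8 / 2 < D l ∧ D l ≤ s t / 8) with hV
  have hVcard : ∀ t ∈ T, 12 * A * Nn < ((V t).card : ℝ) := by
    intro t ht
    obtain ⟨htS, hcov⟩ := hTs t ht
    have hsε : 4 * ε ≤ s (t + 1) := by
      have h1 : (b:ℝ) ^ (t + 1) ≤ σ / ε := le_trans (pow_le_pow_right₀ (by linarith) (by omega)) hS1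
      rw [le_div_iff₀ hε] at h1
      simp only [hs]
      rw [le_div_iff₀ (by positivity)]
      nlinarith
    have hdl : ∀ l, l ≤ m → D l ≤ s t / 8 → d l (j / 2 ^ (m - l)) ≤ 3 * C * s (t + 1) := by
      intro l hl hDl
      obtain ⟨j', hj', hj'2⟩ := hcov (w l (j / 2 ^ (m - l))) hDl
      have h1 := hT.whit l (j / 2 ^ (m - l)) m j'
      have h2 := (hP j' hj').2
      have h3 : ‖w l (j / 2 ^ (m - l)) - w m j'‖ ≤ 2 * s (t + 1) := hj'2
      calc d l (j / 2 ^ (m - l)) ≤ C * (‖w l (j / 2 ^ (m - l)) - w m j'‖ + d m j') := h1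
        _ ≤ C * (2 * s (t + 1) + 2 * ε) := by gcongr
        _ ≤ C * (3 * s (t + 1)) := by gcongr; linarith
        _ = 3 * C * s (t + 1) := by ring
    have hann := annulus D k m hkm (s t / 8) (3 * C ^ 3 * s (t + 1)) (by have := hspos (t + 1); positivity) ?_ ?_ ?_
    · have h1 := hss t
      have h2 := hspos (t + 1)
      have h3 : (b:ℝ) < 48 * C ^ 3 * (((V t).card : ℝ) + 1) := by
        have : s (t + 1) * (b:ℝ) < s (t + 1) * (48 * C ^ 3 * (((V t).card : ℝ) + 1)) := by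
          have h4 : s t / 8 / 2 < (((V t).card : ℝ) + 1) * (3 * C ^ 3 * s (t + 1)) := hann
          rw [h1] at h4
          nlinarith
        exact lt_of_mul_lt_mul_left this h2.le
      have h4 : 48 * C ^ 3 * (12 * A * Nn + 1) < 48 * C ^ 3 * (((V t).card : ℝ) + 1) := lt_of_le_of_lt hbig h3
      have h5 := lt_of_mul_lt_mul_left h4 (by positivity)
      linarith
    · by_contra hcon
      push Not at hcon
      have h1 := hdl k hkm hcon
      rw [(hP j hj).1] at h1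
      have h2 : s (t + 1) ≤ 4 * C * σ / b := by
        simp only [hs]
        apply div_le_div_of_nonneg_left (by positivity) hb0
        calc (b:ℝ) = b ^ 1 := (pow_one _).symm
          _ ≤ b ^ (t + 1) := pow_le_pow_right₀ (by linarith) (by omega)
      have h3 : σ ≤ C * (3 * C * (4 * C * σ / b)) := by
        calc σ ≤ C * d k i := hσd
          _ ≤ C * (3 * C * s (t + 1)) := by gcongr
          _ ≤ C * (3 * C * (4 * C * σ / b)) := by gcongr
      have h4 : C * (3 * C * (4 * C * σ / b)) = 12 * C ^ 3 * σ / b := by ring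
      rw [h4, le_div_iff₀ hb0] at h3
      have h5 : 48 * C ^ 3 ≤ b := by
        have : 48 * C ^ 3 * 1 ≤ 48 * C ^ 3 * (12 * A * Nn + 1) := by
          apply mul_le_mul_of_nonneg_left _ (by positivity)
          have : 0 ≤ 12 * A * (Nn:ℝ) := by positivity
          linarith
        linarith
      have h6 : 0 < C ^ 3 := by positivity
      nlinarith [mul_pos hσ h6]
    · simp only [hD, Nat.sub_self, pow_zero, Nat.div_one, sub_self, norm_zero]
      have := hspos t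
      positivity
    · intro l hl hlm hDl
      have h1 := hdl (l + 1) (by omega) hDl
      have h2 := hT.step l (j / 2 ^ (m - (l + 1)))
      have h3 := hT.parent l (j / 2 ^ (m - (l + 1)))
      rw [hstepidx l hlm] at h2 h3
      have h4 : ‖w (l + 1) (j / 2 ^ (m - (l + 1))) - w l (j / 2 ^ (m - l))‖ ≤ 3 * C ^ 3 * s (t + 1) := by
        calc ‖w (l + 1) (j / 2 ^ (m - (l + 1))) - w l (j / 2 ^ (m - l))‖ ≤ C * d l (j / 2 ^ (m - l)) := h2
          _ ≤ C * (C * d (l + 1) (j / 2 ^ (m - (l + 1)))) := by gcongr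
          _ ≤ C * (C * (3 * C * s (t + 1))) := by gcongr
          _ = 3 * C ^ 3 * s (t + 1) := by ring
      have h5 : D l ≤ D (l + 1) + ‖w (l + 1) (j / 2 ^ (m - (l + 1))) - w l (j / 2 ^ (m - l))‖ := by
        simp only [hD]
        have e1 : w l (j / 2 ^ (m - l)) - w m j = (w (l + 1) (j / 2 ^ (m - (l + 1))) - w m j) -
          (w (l + 1) (j / 2 ^ (m - (l + 1))) - w l (j / 2 ^ (m - l))) := by ring
        rw [e1]
        exact norm_sub_le _ _
      linarith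
  have hdisj : ∀ t ∈ T, ∀ t' ∈ T, t ≠ t' → Disjoint (V t) (V t') := by
    have hlt : ∀ t t' : ℕ, t < t' → Disjoint (V t) (V t') := by
      intro t t' htt
      rw [Finset.disjoint_left]
      intro l hl hl'
      simp only [hV, Finset.mem_filter] at hl hl'
      have h1 : s t' ≤ s (t + 1) := by
        simp only [hs]
        apply div_le_div_of_nonneg_left (by positivity) (by positivity)
        exact pow_le_pow_right₀ (by linarith) (by omega)
      have h2 := hss t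
      have h3 := hspos (t + 1)
      nlinarith [hl.2.1, hl'.2.2]
    intro t _ t' _ hne
    rcases lt_or_gt_of_ne hne with h | h
    · exact hlt t t' h
    · exact (hlt t' t h).symm
  have hsum : (∑ t ∈ T, ((V t).card : ℝ)) ≤ (m:ℝ) - k := by
    have h1 : (T.biUnion V).card = ∑ t ∈ T, (V t).card := Finset.card_biUnion hdisj
    have h2 : T.biUnion V ⊆ Finset.Ioc k m := by
      intro l hl
      rw [Finset.mem_biUnion] at hl
      obtain ⟨t, _, hl⟩ := hl
      simp only [hV, Finset.mem_filter] at hl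
      exact hl.1
    have h3 := Finset.card_le_card h2
    rw [h1, Nat.card_Ioc] at h3
    have h4 : ((∑ t ∈ T, (V t).card : ℕ) : ℝ) ≤ ((m - k : ℕ) : ℝ) := by exact_mod_cast h3
    rw [Nat.cast_sub hkm] at h4
    push_cast at h4
    exact h4
  rcases T.eq_empty_or_nonempty with hTe | ⟨t0, ht0⟩
  · rw [hTe]; simp
  have hSpos : 1 ≤ S := by have := (hTs t0 ht0).1; omega
  have hlow : (T.card : ℝ) * (12 * A * Nn) ≤ ∑ t ∈ T, ((V t).card : ℝ) := by
    have := Finset.sum_le_sum (fun t ht => (hVcard t ht).le)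
    rw [Finset.sum_const, nsmul_eq_mul] at this
    exact this
  have hlog : Real.logb 2 (σ / ε) ≤ ((S:ℝ) + 1) * Nn := by
    have h1 : Real.logb 2 (σ / ε) ≤ Real.logb 2 ((b:ℝ) ^ (S + 1)) :=
      Real.logb_le_logb_of_le (by norm_num) (by positivity) hS2.le
    rw [Real.logb_pow, hb] at h1
    push_cast at h1
    rw [Real.logb_pow, Real.logb_self_eq_one (by norm_num)] at h1
    linarith
  have hNn' : (3:ℝ) ≤ Nn := by exact_mod_cast hNn
  have hS' : (1:ℝ) ≤ S := by exact_mod_cast hSpos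
  have hfin : (T.card : ℝ) * (12 * A * Nn) ≤ A * (1 + ((S:ℝ) + 1) * Nn) := by
    calc (T.card : ℝ) * (12 * A * Nn) ≤ (m:ℝ) - k := le_trans hlow hsum
      _ ≤ A * (1 + Real.logb 2 (σ / ε)) := hmk
      _ ≤ A * (1 + ((S:ℝ) + 1) * Nn) := by gcongr
  have hA0 : 0 < A := by linarith
  have h7 : A * (12 * (T.card : ℝ) * Nn) ≤ A * (1 + ((S:ℝ) + 1) * Nn) := by linarith
  have h8 := le_of_mul_le_mul_left h7 hA0
  have h9 : 1 + ((S:ℝ) + 1) * Nn ≤ 3 * S * Nn := by nlinarith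
  have h10 : (12 * (T.card : ℝ)) * Nn ≤ (3 * S) * Nn := by linarith
  have h11 := le_of_mul_le_mul_right h10 (by linarith)
  have h12 : (4 * (T.card : ℝ)) ≤ S := by linarith
  exact_mod_cast h12

lemma exists_big (K : ℝ) (_hK : 0 ≤ K) : ∃ n : ℕ, 3 ≤ n ∧ K * n ≤ 2 ^ n := by
  obtain ⟨M, hM⟩ := exists_nat_ge (2 * K)
  refine ⟨2 * (M + 2), by omega, ?_⟩
  have h1 : ((M + 2 : ℕ) : ℝ) < 2 ^ (M + 2) := by exact_mod_cast Nat.lt_two_pow_self
  have h2 : (2:ℝ) ^ (2 * (M + 2)) = 2 ^ (M + 2) * 2 ^ (M + 2) := by rw [two_mul, pow_add]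
  rw [h2]
  push_cast at h1 ⊢
  have h3 : 2 * K ≤ (2:ℝ) ^ (M + 2) := by linarith
  have h4 : (0:ℝ) ≤ (M:ℝ) + 2 := by positivity
  nlinarith

lemma pow_bound {b : ℝ} (hb : 1 < b) {q : ℝ} (hq0 : 0 < q) (hq1 : q < 1) :
    ∃ η : ℝ, 0 < η ∧ η ≤ 1 ∧ ∀ (S : ℕ) (x : ℝ), b ^ S ≤ x → (b * b * q) ^ S ≤ x ^ (2 - η) := by
  have hlb : 0 < Real.log b := Real.log_pos hb
  have hlq : Real.log q < 0 := Real.log_neg hq0 hq1
  have hb0 : 0 < b := by linarith
  refine ⟨min 1 (-Real.log q / Real.log b), lt_min one_pos (div_pos (by linarith) hlb), min_le_left _ _, ?_⟩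
  intro S x hx
  set η := min 1 (-Real.log q / Real.log b) with hη
  have h1 : η ≤ -Real.log q / Real.log b := min_le_right _ _
  have hη1 : η ≤ 1 := min_le_left _ _
  rw [le_div_iff₀ hlb] at h1
  have h2 : q ≤ b ^ (-η) := by
    rw [Real.rpow_def_of_pos hb0, ← Real.log_le_iff_le_exp hq0]
    linarith
  have h3 : b * b * q ≤ b ^ (2 - η) := by
    have e1 : (2:ℝ) - η = 1 + 1 + -η := by ring
    rw [e1, Real.rpow_add hb0, Real.rpow_add hb0, Real.rpow_one]
    exact mul_le_mul_of_nonneg_left h2 (by positivity)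
  calc (b * b * q) ^ S ≤ (b ^ (2 - η)) ^ S := pow_le_pow_left₀ (by positivity) h3 S
    _ = (b ^ S) ^ (2 - η) := by
      rw [← Real.rpow_natCast (b ^ (2 - η)) S, ← Real.rpow_mul hb0.le, mul_comm, Real.rpow_mul hb0.le, Real.rpow_natCast]
    _ ≤ x ^ (2 - η) := Real.rpow_le_rpow (by positivity) hx (by linarith)

theorem t_JM (hAR : S_AR) (hJMA : S_JMA) : S_JM := by
  intro C A hC hA
  obtain ⟨K1, hK1⟩ := hAR C hC
  obtain ⟨Nn, hNn, hNbig⟩ := exists_big (48 * C ^ 3 * (13 * A)) (by positivity)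
  set e := 2 ^ (Nn - 3) with he
  have he0 : 0 < e := by positivity
  have hb8 : 8 * e = 2 ^ Nn := by
    rw [he]
    have : (8:ℕ) = 2 ^ 3 := by norm_num
    rw [this, ← pow_add]
    congr 1
    omega
  have hb0 : 0 < 8 * e := by omega
  have hbR : (((8 * e : ℕ)) : ℝ) = 2 ^ Nn := by rw [hb8]; push_cast; ring
  have hb8' : (8:ℝ) ≤ ((8 * e : ℕ):ℝ) := by
    have : 8 ≤ 8 * e := by omega
    exact_mod_cast this
  have hNn' : (1:ℝ) ≤ Nn := by
    have : 1 ≤ Nn := by omega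
    exact_mod_cast this
  have hbig : 48 * C ^ 3 * (12 * A * Nn + 1) ≤ ((8 * e : ℕ):ℝ) := by
    rw [hbR]
    refine le_trans ?_ hNbig
    have h1 : 12 * A * (Nn:ℝ) + 1 ≤ 13 * A * Nn := by nlinarith
    calc 48 * C ^ 3 * (12 * A * Nn + 1) ≤ 48 * C ^ 3 * (13 * A * Nn) := by gcongr
      _ = 48 * C ^ 3 * (13 * A) * Nn := by ring
  obtain ⟨q, hq0, hq1, hq⟩ := hJMA ((8 * e) * (8 * e)) (by nlinarith)
  obtain ⟨η, hη0, hη1, hη⟩ := pow_bound (b := ((8 * e : ℕ):ℝ)) (by linarith) hq0 hq1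
  refine ⟨|K1| * (8 * ((8 * e : ℕ):ℝ) + 1) ^ 2, η, hη0, hη1, ?_⟩
  intro w d hT k m i hkm hi σ ε c hε hεσ hσd hmk
  set P := (Finset.range (2 ^ m)).filter
    (fun j => j / 2 ^ (m - k) = i ∧ ‖w m j - c‖ ≤ C * σ ∧ ε ≤ d m j ∧ d m j ≤ 2 * ε) with hP
  have hPm : ∀ j ∈ P, j < 2 ^ m ∧ j / 2 ^ (m - k) = i ∧ ‖w m j - c‖ ≤ C * σ ∧ ε ≤ d m j ∧ d m j ≤ 2 * ε := by
    intro j hj
    rw [hP, Finset.mem_filter, Finset.mem_range] at hj
    exact hj
  have hσ : 0 < σ := lt_of_lt_of_le hε hεσ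
  have hC0 : 0 < C := by linarith
  set L := 4 * C * σ with hL
  have hL0 : 0 < L := by positivity
  obtain ⟨S, hS1, hS2⟩ := exists_nat_pow_near (x := σ / ε) (y := ((8 * e : ℕ):ℝ)) (by rw [le_div_iff₀ hε]; linarith) (by linarith)
  set X : ℕ → ℝ := fun j => ((w m j - c).re + C * σ) / L with hXdef
  set Y : ℕ → ℝ := fun j => ((w m j - c).im + C * σ) / L with hYdef
  have hX : ∀ j ∈ P, 0 ≤ X j ∧ X j < 1 := by
    intro j hj
    have h1 := (hPm j hj).2.2.1
    have h2 := abs_le.mp (le_trans (Complex.abs_re_le_norm (w m j - c)) h1)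
    constructor
    · exact div_nonneg (by linarith [h2.1]) hL0.le
    · simp only [hXdef]
      rw [div_lt_one hL0, hL]
      nlinarith [h2.2, mul_pos hC0 hσ]
  have hY : ∀ j ∈ P, 0 ≤ Y j ∧ Y j < 1 := by
    intro j hj
    have h1 := (hPm j hj).2.2.1
    have h2 := abs_le.mp (le_trans (Complex.abs_im_le_norm (w m j - c)) h1)
    constructor
    · exact div_nonneg (by linarith [h2.1]) hL0.le
    · simp only [hYdef]
      rw [div_lt_one hL0, hL]
      nlinarith [h2.2, mul_pos hC0 hσ]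
  -- distances from the coordinates
  have hdist : ∀ (u : ℂ) (j' : ℕ) (δ : ℝ), |((u - c).re + C * σ) / L - X j'| ≤ δ → |((u - c).im + C * σ) / L - Y j'| ≤ δ →
      ‖u - w m j'‖ ≤ 2 * (L * δ) := by
    intro u j' δ h1 h2
    have e1 : ((u - c).re + C * σ) / L - X j' = (u - w m j').re / L := by
      simp only [hXdef, Complex.sub_re]
      field_simp
      ring
    have e2 : ((u - c).im + C * σ) / L - Y j' = (u - w m j').im / L := by
      simp only [hYdef, Complex.sub_im]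
      field_simp
      ring
    rw [e1, abs_div, abs_of_pos hL0, div_le_iff₀ hL0] at h1
    rw [e2, abs_div, abs_of_pos hL0, div_le_iff₀ hL0] at h2
    have h3 := Complex.norm_le_abs_re_add_abs_im (u - w m j')
    linarith
  have hbt : ∀ t : ℕ, 0 < ((8 * e : ℕ):ℝ) ^ t := fun t => by positivity
  set a : ℕ → ℕ → Fin ((8 * e) * (8 * e)) := fun j t =>
    finProdFinEquiv ((⟨fl (8 * e) (t + 1) (X j) % (8 * e), Nat.mod_lt _ hb0⟩ : Fin (8 * e)),
          (⟨fl (8 * e) (t + 1) (Y j) % (8 * e), Nat.mod_lt _ hb0⟩ : Fin (8 * e))) with ha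
  set midb : Finset (Fin (8 * e)) := Finset.Ico ⟨e, by omega⟩ ⟨7 * e, by omega⟩ with hmidb
  set Mid : Finset (Fin ((8 * e) * (8 * e))) := (midb ×ˢ midb).map finProdFinEquiv.toEmbedding with hMid
  have hmidcard : (8 * e) * (8 * e) ≤ 2 * Mid.card := by
    rw [hMid, Finset.card_map, Finset.card_product, hmidb, Fin.card_Ico]
    simp only
    have : 7 * e - e = 6 * e := by omega
    rw [this]
    nlinarith
  have hN : ∀ j ∈ P, ((P.filter (fun j' => ∀ s < S, a j' s = a j s)).card : ℝ) ≤ |K1| * (8 * ((8 * e : ℕ):ℝ) + 1) ^ 2 := by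
    intro j hj
    have h1 := hK1 w d hT m (P.filter (fun j' => ∀ s < S, a j' s = a j s)) (8 * ((8 * e : ℕ):ℝ) * ε) ε (w m j) hε
      (by positivity) ?_
    · refine le_trans h1 ?_
      have e1 : 8 * ((8 * e : ℕ):ℝ) * ε / ε = 8 * ((8 * e : ℕ):ℝ) := by field_simp
      rw [e1]
      exact mul_le_mul_of_nonneg_right (le_abs_self K1) (by positivity)
    · intro j' hj'
      rw [Finset.mem_filter] at hj'
      obtain ⟨hj'P, hs⟩ := hj'
      refine ⟨(hPm j' hj'P).1, ?_, (hPm j' hj'P).2.2.2.1⟩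
      have hs' : ∀ s < S, fl (8 * e) (s + 1) (X j') % (8 * e) = fl (8 * e) (s + 1) (X j) % (8 * e) ∧
          fl (8 * e) (s + 1) (Y j') % (8 * e) = fl (8 * e) (s + 1) (Y j) % (8 * e) := by
        intro s hst
        have := finProdFinEquiv.injective (hs s hst)
        simpa only [Prod.mk.injEq, Fin.mk.injEq] using this
      have e1 := fl_eq_of_dg hb0 (hX j' hj'P).2 (hX j hj).2 S (fun s hst => (hs' s hst).1)
      have e2 := fl_eq_of_dg hb0 (hY j' hj'P).2 (hY j hj).2 S (fun s hst => (hs' s hst).2)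
      have h2 := close_of_fl hb0 (hX j' hj'P).1 (hX j hj).1 S e1
      have h3 := close_of_fl hb0 (hY j' hj'P).1 (hY j hj).1 S e2
      have h4 := hdist (w m j') j (1 / ((8 * e : ℕ):ℝ) ^ S) h2 h3
      refine le_trans h4 ?_
      have h5 : σ / ((8 * e : ℕ):ℝ) ^ S ≤ ((8 * e : ℕ):ℝ) * ε := by
        rw [div_le_iff₀ (hbt S)]
        rw [div_lt_iff₀ hε, pow_succ] at hS2
        linarith
      have e3 : 2 * (L * (1 / ((8 * e : ℕ):ℝ) ^ S)) = 8 * C * (σ / ((8 * e : ℕ):ℝ) ^ S) := by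
        rw [hL]; ring
      rw [e3]
      have h6 : 8 * C * (σ / ((8 * e : ℕ):ℝ) ^ S) ≤ 8 * C * (((8 * e : ℕ):ℝ) * ε) := by
        apply mul_le_mul_of_nonneg_left h5 (by positivity)
      linarith
  have hmain := hq P a Mid S (|K1| * (8 * ((8 * e : ℕ):ℝ) + 1) ^ 2) hmidcard (by positivity) hN ?_
  · refine le_trans hmain ?_
    have h1 := hη S (σ / ε) hS1
    have e1 : (((8 * e) * (8 * e) : ℕ) : ℝ) * q = ((8 * e : ℕ):ℝ) * ((8 * e : ℕ):ℝ) * q := by push_cast; ring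
    rw [e1]
    exact mul_le_mul_of_nonneg_left h1 (by positivity)
  · intro j hj
    refine count_T hC hA hT (b := 8 * e) hb8 hNn hbig hkm hε hεσ hσd hmk S hS1 hS2 P
      (fun j' hj' => ⟨(hPm j' hj').2.1, (hPm j' hj').2.2.2.2⟩) j hj _ ?_
    intro t ht
    rw [Finset.mem_filter, Finset.mem_range] at ht
    obtain ⟨htS, hmid, hfull⟩ := ht
    refine ⟨htS, ?_⟩
    intro u hu
    rw [hMid, Finset.mem_map] at hmid
    obtain ⟨pq, hpq, hpq2⟩ := hmid
    have hpq3 : pq = ((⟨fl (8 * e) (t + 1) (X j) % (8 * e), Nat.mod_lt _ hb0⟩ : Fin (8 * e)),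
          (⟨fl (8 * e) (t + 1) (Y j) % (8 * e), Nat.mod_lt _ hb0⟩ : Fin (8 * e))) := finProdFinEquiv.injective hpq2
    rw [hpq3, Finset.mem_product, hmidb, Finset.mem_Ico, Finset.mem_Ico] at hpq
    simp only [Fin.mk_le_mk, Fin.mk_lt_mk] at hpq
    have hcoord : ∀ (x : ℝ), |x| ≤ ‖u - w m j‖ → |x / L| * ((8 * e : ℕ):ℝ) ^ t ≤ 1 / 8 := by
      intro x hx
      rw [abs_div, abs_of_pos hL0]
      have h1 : |x| ≤ L / ((8 * e : ℕ):ℝ) ^ t / 8 := le_trans hx hu
      calc |x| / L * ((8 * e : ℕ):ℝ) ^ t ≤ (L / ((8 * e : ℕ):ℝ) ^ t / 8) / L * ((8 * e : ℕ):ℝ) ^ t := by gcongr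
        _ = 1 / 8 := by
          have := hbt t
          field_simp
    have hux : |((u - c).re + C * σ) / L - X j| * ((8 * e : ℕ):ℝ) ^ t ≤ 1 / 8 := by
      have e1 : ((u - c).re + C * σ) / L - X j = (u - w m j).re / L := by
        simp only [hXdef, Complex.sub_re]
        field_simp
        ring
      rw [e1]
      exact hcoord _ (Complex.abs_re_le_norm _)
    have huy : |((u - c).im + C * σ) / L - Y j| * ((8 * e : ℕ):ℝ) ^ t ≤ 1 / 8 := by
      have e1 : ((u - c).im + C * σ) / L - Y j = (u - w m j).im / L := by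
        simp only [hYdef, Complex.sub_im]
        field_simp
        ring
      rw [e1]
      exact hcoord _ (Complex.abs_im_le_norm _)
    obtain ⟨j', hj', h1, h2⟩ := key_full he0 X Y P hX hY hb0 j hj t hpq.1.1 hpq.1.2 hpq.2.1 hpq.2.2 hfull _ _ hux huy
    refine ⟨j', hj', ?_⟩
    have h3 := hdist u j' _ h1 h2
    rw [mul_one_div] at h3
    exact h3

end V5helper41.SZ
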